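import Mathlib
import Pool.Agent.N604.MW.Stm13
import Pool.Agent.N604.MW.KMeas
import Pool.Agent.N604.MW.DMeas
import Pool.Agent.N749.KW_DSup

/-!
# AP/PMOM: moments of the contribution of the large frequencies, with weights (helper881, after AD/AMOM
of helper667, KW/DMOM of helper400 and KV/MOM of helper490)
-/

set_option autoImplicit false

namespace Pool.Agent.N881.APMom

open MeasureTheory Finset Pool.Agent.N604.MW
open scoped ENNReal

theorem Blk_sub (a : ℕ) : Blk a ⊆ Finset.Icc (XB a) (2 * XB a) := by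
  unfold Blk XB
  split_ifs with h
  · simp
  · obtain ⟨b, rfl⟩ : ∃ b, a = b + 1 := ⟨a - 1, by omega⟩
    intro x hx
    rw [Finset.mem_Ico, Nat.add_sub_cancel, pow_succ] at hx
    rw [Finset.mem_Icc, Nat.add_sub_cancel]
    omega

/-- the weighted exponential sum over one block -/
noncomputable def SV (k a : ℕ) (w : ℕ → ℝ) (y : ℝ) : ℂ := ∑ x ∈ Blk a, (w x : ℂ) * e (y * (x : ℝ) ^ k)

theorem SW_eq (k a : ℕ) (w : ℕ → ℝ) (α t : ℝ) : SW (Blk a) w (nk k α) t = SV k a w (α * t) := by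
  unfold SW SV nk
  refine Finset.sum_congr rfl fun x _ => ?_
  congr 2
  ring

theorem SV_continuous (k a : ℕ) (w : ℕ → ℝ) : Continuous (SV k a w) := by
  unfold SV
  refine continuous_finsetSum _ fun x _ => ?_
  exact continuous_const.mul (e_continuous.comp (continuous_id.mul continuous_const))

theorem SV_neg (k a : ℕ) (w : ℕ → ℝ) (y : ℝ) : SV k a w (-y) = (starRingEnd ℂ) (SV k a w y) := by
  unfold SV
  rw [map_sum]
  refine Finset.sum_congr rfl fun x _ => ?_
  rw [map_mul, Complex.conj_ofReal, ← e_neg, neg_mul]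

theorem SV_norm (k a : ℕ) (w : ℕ → ℝ) (L : ℝ) (hw : ∀ x ∈ Blk a, |w x| ≤ L) (y : ℝ) :
    ‖SV k a w y‖ ≤ L * (Blk a).card := by
  unfold SV
  refine (norm_sum_le _ _).trans ?_
  refine (Finset.sum_le_card_nsmul _ _ L fun x hx => ?_).trans ?_
  · rw [norm_mul, e_norm, mul_one, Complex.norm_real, Real.norm_eq_abs]
    exact hw x hx
  · rw [nsmul_eq_mul, mul_comm]

theorem sq_continuous : Continuous N604.MW.sq := by
  unfold N604.MW.sq
  exact (Real.continuous_sinc.comp (continuous_const.mul continuous_id)).pow 2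

theorem sq_neg (t : ℝ) : N604.MW.sq (-t) = N604.MW.sq t := by
  unfold N604.MW.sq
  rw [mul_neg, Real.sinc_neg]

theorem sq_nonneg' (t : ℝ) : 0 ≤ N604.MW.sq t := by
  unfold N604.MW.sq
  positivity

theorem e_mul_integrable (t : ℝ) : Integrable (fun x : ℝ => e (x * t)) G1 := by
  refine Integrable.of_bound (C := 1) ?_ (ae_of_all _ fun x => (e_norm _).le)
  exact (e_continuous.comp (continuous_id.mul continuous_const)).aestronglyMeasurable

theorem int_prod_SV (n k a : ℕ) (w : ℕ → ℝ) (L : ℝ) (hL : 0 ≤ L) (hw : ∀ x ∈ Blk a, |w x| ≤ L)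
    (b : Fin n → ℝ) :
    ‖∫ x, ∏ j, SV k a w (x * b j) ∂G1‖ ≤ L ^ n * GD n k (XB a) b := by
  have h1 : ∀ x : ℝ, ∏ j, SV k a w (x * b j) = ∑ z ∈ Fintype.piFinset (fun _ : Fin n => Blk a),
      ((∏ j, w (z j) : ℝ) : ℂ) * e (x * ∑ j, b j * (z j : ℝ) ^ k) := by
    intro x
    unfold SV
    rw [Finset.prod_univ_sum]
    refine Finset.sum_congr rfl fun z _ => ?_
    rw [Finset.prod_mul_distrib, Complex.ofReal_prod]
    congr 1
    rw [Finset.mul_sum, Pool.Agent.N749.KWDSup.e_sum]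
    exact Finset.prod_congr rfl fun j _ => by rw [mul_assoc]
  simp_rw [h1]
  rw [integral_finsetSum _ fun z _ => (e_mul_integrable _).const_mul _]
  refine (norm_sum_le _ _).trans ?_
  unfold GD
  rw [Finset.mul_sum]
  refine (Finset.sum_le_sum fun z hz => ?_ : _ ≤ ∑ z ∈ Fintype.piFinset (fun _ : Fin n => Blk a),
    L ^ n * Real.exp (-(2 * Real.pi ^ 2 * (∑ j, b j * (z j : ℝ) ^ k) ^ 2))).trans ?_
  · rw [integral_const_mul, Pool.Agent.N749.KWDSup.int_e, norm_mul, Complex.norm_real,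
      Complex.norm_real, Real.norm_eq_abs, Real.norm_eq_abs,
      Finset.abs_prod, abs_of_pos (Real.exp_pos _)]
    refine mul_le_mul_of_nonneg_right ?_ (Real.exp_pos _).le
    refine (Finset.prod_le_prod (fun j _ => abs_nonneg _)
      fun j _ => hw _ (Fintype.mem_piFinset.1 hz j)).trans ?_
    simp
  · refine Finset.sum_le_sum_of_subset_of_nonneg
      (Fintype.piFinset_subset _ _ fun _ => Blk_sub a) fun z _ _ => by positivity

section

variable (s k : ℕ) (a : Fin s → ℕ) (w : ℕ → ℝ) (L : ℝ) (N : ℤ)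

/-- the function under the integral -/
noncomputable def ff (α : Fin s → ℝ) (t : ℝ) : ℂ :=
  (N604.MW.sq t : ℂ) * (∏ i, SV k (a i) w (α i * t)) * e (-(t * N))

theorem ff_continuous : Continuous fun p : (Fin s → ℝ) × ℝ => ff s k a w N p.1 p.2 := by
  unfold ff
  refine ((Complex.continuous_ofReal.comp (sq_continuous.comp continuous_snd)).mul
    (continuous_finsetProd _ fun i _ => (SV_continuous k (a i) w).comp ?_)).mul (e_continuous.comp ?_)
  · fun_prop
  · fun_prop

/-- the bound for the product -/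
noncomputable def CC : ℝ := ∏ i, (L * ((Blk (a i)).card : ℝ))

theorem ff_norm_le (hw : ∀ i, ∀ x ∈ Blk (a i), |w x| ≤ L) (α : Fin s → ℝ) (t : ℝ) : ‖ff s k a w N α t‖ ≤ CC s a L * N604.MW.sq t := by
  unfold ff CC
  rw [norm_mul, e_norm, mul_one, norm_mul, norm_prod, Complex.norm_real, Real.norm_eq_abs,
    abs_of_nonneg (sq_nonneg' t), mul_comm]
  exact mul_le_mul_of_nonneg_right
    (Finset.prod_le_prod (fun i _ => norm_nonneg _) fun i _ => SV_norm k (a i) w L (hw i) _) (sq_nonneg' t)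

theorem ff_neg (α : Fin s → ℝ) (t : ℝ) :
    ff s k a w N α (-t) = (starRingEnd ℂ) (ff s k a w N α t) := by
  unfold ff
  rw [map_mul, map_mul, map_prod, ← e_neg, sq_neg, Complex.conj_ofReal]
  congr 1
  · congr 1
    exact Finset.prod_congr rfl fun i _ => by rw [← SV_neg, mul_neg]
  · congr 1
    ring

theorem meas_R (η : ℝ) : MeasurableSet {t : ℝ | η ≤ |t|} :=
  measurableSet_le measurable_const measurable_norm

theorem EA_eq (η : ℝ) (α : Fin s → ℝ) :
    EW (fun i => Blk (a i)) w (fun i => nk k (α i)) η N = ∫ t in {t : ℝ | η ≤ |t|}, ff s k a w N α t := by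
  unfold EW ff
  simp only [SW_eq]

theorem EA_conj (η : ℝ) (α : Fin s → ℝ) :
    (starRingEnd ℂ) (EW (fun i => Blk (a i)) w (fun i => nk k (α i)) η N) = EW (fun i => Blk (a i)) w (fun i => nk k (α i)) η N := by
  rw [EA_eq, ← integral_conj, ← integral_indicator (meas_R _),
    ← integral_indicator (meas_R _),
    ← integral_neg_eq_self (fun t => ({t : ℝ | η ≤ |t|}).indicator (fun t => ff s k a w N α t) t)]
  refine integral_congr_ae (ae_of_all _ fun t => ?_)
  have h1 : -t ∈ {t : ℝ | η ≤ |t|} ↔ t ∈ {t : ℝ | η ≤ |t|} := by simp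
  by_cases hb : t ∈ {t : ℝ | η ≤ |t|}
  · simp only [Set.indicator_of_mem hb, Set.indicator_of_mem (h1.2 hb)]
    exact (ff_neg s k a w N α t).symm
  · simp only [Set.indicator_of_notMem hb, Set.indicator_of_notMem (fun h => hb (h1.1 h))]

theorem EA_pow (η : ℝ) (α : Fin s → ℝ) (n : ℕ) :
    EW (fun i => Blk (a i)) w (fun i => nk k (α i)) η N ^ n = ∫ b : Fin n → ℝ, ∏ j, ff s k a w N α (b j)
      ∂(Measure.pi fun _ : Fin n => volume.restrict {t : ℝ | η ≤ |t|}) := by
  rw [integral_fintype_prod_eq_pow (fun t => ff s k a w N α t), Fintype.card_fin, EA_eq]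

theorem EA_norm_pow (η : ℝ) (α : Fin s → ℝ) (m : ℕ) :
    ((‖EW (fun i => Blk (a i)) w (fun i => nk k (α i)) η N‖ ^ (2 * m) : ℝ) : ℂ) = EW (fun i => Blk (a i)) w (fun i => nk k (α i)) η N ^ (2 * m) := by
  obtain ⟨z, hz⟩ : ∃ z, z = EW (fun i => Blk (a i)) w (fun i => nk k (α i)) η N := ⟨_, rfl⟩
  have h1 : (starRingEnd ℂ) z = z := by
    rw [hz]
    exact EA_conj s k a w N η α
  rw [← hz]
  have h2 : ((z.re : ℝ) : ℂ) = z := Complex.conj_eq_iff_re.1 h1
  rw [← h2, Complex.norm_real, Real.norm_eq_abs, pow_mul, sq_abs, ← pow_mul]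
  push_cast
  rfl

/-- the expectation of the product -/
theorem inner_eq (n : ℕ) (b : Fin n → ℝ) :
    ∫ α, ∏ j, ff s k a w N α (b j) ∂(GM s) =
      (∏ j, ((N604.MW.sq (b j) : ℂ) * e (-(b j * N)))) * ∏ i : Fin s, ∫ x, ∏ j, SV k (a i) w (x * b j) ∂G1 := by
  have h1 : ∀ α : Fin s → ℝ, ∏ j, ff s k a w N α (b j) =
      (∏ j, ((N604.MW.sq (b j) : ℂ) * e (-(b j * N)))) * ∏ i, ∏ j, SV k (a i) w (α i * b j) := by
    intro α
    unfold ff
    rw [Finset.prod_comm, ← Finset.prod_mul_distrib]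
    exact Finset.prod_congr rfl fun j _ => by ring
  simp_rw [h1]
  rw [integral_const_mul]
  congr 1
  exact integral_fintype_prod_eq_prod (fun (i : Fin s) (x : ℝ) => ∏ j, SV k (a i) w (x * b j))

theorem norm_inner (hL : 0 ≤ L) (hw : ∀ i, ∀ x ∈ Blk (a i), |w x| ≤ L) (n : ℕ) (b : Fin n → ℝ) :
    ‖∫ α, ∏ j, ff s k a w N α (b j) ∂(GM s)‖ ≤
      L ^ (n * s) * ((∏ j, N604.MW.sq (b j)) * ∏ i, GD n k (XB (a i)) b) := by
  rw [inner_eq, norm_mul, norm_prod, norm_prod]
  have h1 : ∏ j, ‖(N604.MW.sq (b j) : ℂ) * e (-(b j * N))‖ = ∏ j, N604.MW.sq (b j) :=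
    Finset.prod_congr rfl fun j _ => by
      rw [norm_mul, e_norm, mul_one, Complex.norm_real, Real.norm_eq_abs, abs_of_nonneg (sq_nonneg' _)]
  rw [h1]
  have h2 : ∏ i : Fin s, ‖∫ x, ∏ j, SV k (a i) w (x * b j) ∂G1‖ ≤
      L ^ (n * s) * ∏ i, GD n k (XB (a i)) b := by
    refine (Finset.prod_le_prod (fun i _ => norm_nonneg _) fun i _ => int_prod_SV n k (a i) w L hL (hw i) b).trans ?_
    rw [Finset.prod_mul_distrib]
    simp [pow_mul]
  calc (∏ j, N604.MW.sq (b j)) * ∏ i : Fin s, ‖∫ x, ∏ j, SV k (a i) w (x * b j) ∂G1‖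
      ≤ (∏ j, N604.MW.sq (b j)) * (L ^ (n * s) * ∏ i, GD n k (XB (a i)) b) :=
        mul_le_mul_of_nonneg_left h2 (Finset.prod_nonneg fun j _ => sq_nonneg' _)
    _ = _ := by ring

end

theorem pmom (h : S_ATRI) : S_PMOM := by
  intro s m hs hm k a w L η N hη hL hw
  obtain ⟨hsi, hsq, -⟩ := h
  obtain ⟨n, hn⟩ : ∃ n, n = 2 * m := ⟨_, rfl⟩
  have hmeas : Measurable fun p : (Fin s → ℝ) × (Fin n → ℝ) => ∏ j, ff s k a w N p.1 (p.2 j) := by
    refine Finset.measurable_prod _ fun j _ => ?_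
    exact Measurable.comp (g := fun p : (Fin s → ℝ) × ℝ => ff s k a w N p.1 p.2)
      (f := fun p : (Fin s → ℝ) × (Fin n → ℝ) => (p.1, p.2 j)) (ff_continuous s k a w N).measurable (by fun_prop)
  have hI : Integrable (fun b : Fin n → ℝ => ∏ j, N604.MW.sq (b j))
      (Measure.pi fun _ : Fin n => volume.restrict {t : ℝ | η ≤ |t|}) :=
    Integrable.fintype_prod (f := fun _ : Fin n => N604.MW.sq) fun _ => hsi.integrableOn
  have hint : Integrable (Function.uncurry fun (α : Fin s → ℝ) (b : Fin n → ℝ) =>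
      ∏ j, ff s k a w N α (b j)) ((GM s).prod (Measure.pi fun _ : Fin n => volume.restrict {t : ℝ | η ≤ |t|})) := by
    refine ((hI.comp_snd (GM s)).const_mul (CC s a L ^ n)).mono' hmeas.aestronglyMeasurable
      (ae_of_all _ fun p => ?_)
    show ‖∏ j, ff s k a w N p.1 (p.2 j)‖ ≤ CC s a L ^ n * ∏ j, N604.MW.sq (p.2 j)
    rw [norm_prod]
    refine (Finset.prod_le_prod (fun j _ => norm_nonneg _) fun j _ => ff_norm_le s k a w L N hw p.1 (p.2 j)).trans ?_
    rw [Finset.prod_mul_distrib]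
    simp
  have hEi : Integrable (fun α => ‖EW (fun i => Blk (a i)) w (fun i => nk k (α i)) η N‖ ^ (2 * m)) (GM s) := by
    have h1 := hint.integral_prod_left
    refine Integrable.congr (f := fun α => ‖∫ b : Fin n → ℝ, ∏ j, ff s k a w N α (b j)
      ∂(Measure.pi fun _ : Fin n => volume.restrict {t : ℝ | η ≤ |t|})‖) h1.norm (ae_of_all _ fun α => ?_)
    simp only
    rw [← EA_pow, norm_pow, hn]
  have e1 : ∫⁻ α, ENNReal.ofReal (‖EW (fun i => Blk (a i)) w (fun i => nk k (α i)) η N‖ ^ (2 * m)) ∂(GM s) =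
      ‖∫ b : Fin n → ℝ, (∫ α, ∏ j, ff s k a w N α (b j) ∂(GM s))
        ∂(Measure.pi fun _ : Fin n => volume.restrict {t : ℝ | η ≤ |t|})‖ₑ := by
    rw [← integral_integral_swap hint, ← ofReal_integral_eq_lintegral_ofReal hEi (ae_of_all _ fun α => by positivity)]
    have h1 : ∫ α, (∫ b : Fin n → ℝ, ∏ j, ff s k a w N α (b j)
        ∂(Measure.pi fun _ : Fin n => volume.restrict {t : ℝ | η ≤ |t|})) ∂(GM s) =
        ((∫ α, ‖EW (fun i => Blk (a i)) w (fun i => nk k (α i)) η N‖ ^ (2 * m) ∂(GM s) : ℝ) : ℂ) := by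
      refine Eq.trans ?_ integral_complex_ofReal
      refine integral_congr_ae (ae_of_all _ fun α => ?_)
      simp only
      rw [← EA_pow, hn]
      exact (EA_norm_pow s k a w N η α m).symm
    rw [h1, ← ofReal_norm, Complex.norm_real, Real.norm_eq_abs, abs_of_nonneg]
    exact integral_nonneg fun α => by positivity
  rw [e1]
  refine (enorm_integral_le_lintegral_enorm _).trans ?_
  have hpi : (Measure.pi fun _ : Fin n => volume.restrict {t : ℝ | η ≤ |t|}) =
      (volume : Measure (Fin n → ℝ)).restrict {γ : Fin n → ℝ | ∀ j, η ≤ |γ j|} := by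
    rw [volume_pi, ← Measure.restrict_pi_pi]
    congr 1
    ext γ
    simp
  have hSm : MeasurableSet {γ : Fin n → ℝ | ∀ j, η ≤ |γ j|} := by
    have : {γ : Fin n → ℝ | ∀ j, η ≤ |γ j|} = Set.univ.pi fun _ => {t : ℝ | η ≤ |t|} := by
      ext γ
      simp
    rw [this]
    exact MeasurableSet.univ_pi fun _ => meas_R η
  rw [hpi]
  subst hn
  rw [lintegral_indicator hSm, ← lintegral_const_mul' _ _ ENNReal.ofReal_ne_top]
  refine lintegral_mono fun b => ?_
  show ‖∫ α, ∏ j, ff s k a w N α (b j) ∂(GM s)‖ₑ ≤ _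
  rw [← ofReal_norm, ← ENNReal.ofReal_mul (by positivity)]
  refine ENNReal.ofReal_le_ofReal ((norm_inner s k a w L N hL hw (2 * m) b).trans ?_)
  refine mul_le_mul_of_nonneg_left (mul_le_mul_of_nonneg_right ?_ ?_) (by positivity)
  · exact Finset.prod_le_prod (fun j _ => sq_nonneg' _) fun j _ => (hsq _).2.2
  · exact Finset.prod_nonneg fun i _ => GD_nonneg _ _ _ _

end Pool.Agent.N881.APMom
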