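import Pool.Agent.N894.WF.DefsG
import Pool.Agent.N371.WF_B1

/-!
# Project WF (helper894), leaf G1 (helper881): graph products, the lamplighter step
(after leaf B1 of helper371, whose wreath product is used)
-/

set_option autoImplicit false
set_option linter.unusedSectionVars false

namespace Pool.Agent.N881.WF

open N894.WF Pool.Agent.N371.WF
open scoped Classical

section words

variable {V : Type} {X : SimpleGraph V} {Γ : V → Type} [∀ v, Group (Γ v)] {P : Type} [Group P]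
  {m : ℕ}

/-- the subgroup of the neighbours -/
abbrev LL (X : SimpleGraph V) (φ : (v : V) → Γ v → P) (v : V) : Subgroup P :=
  Lbar φ (X.neighborSet v)

/-- the conjugators -/
noncomputable def tau (X : SimpleGraph V) (F : Finset (Σ v, Γ v)) (φ : (v : V) → Γ v → P) (v : V) :
    Wr P F m :=
  ⟨fun z i => if z ∈ LL X φ v ∧ i.1.1 = v then 1 else 0, 1⟩

/-- the new maps -/
noncomputable def ph (X : SimpleGraph V) (m : ℕ) (F : Finset (Σ v, Γ v)) (φ : (v : V) → Γ v → P)
    (v : V) (a : Γ v) : Wr P F m := (tau X F φ v)⁻¹ * inl (φ v a) * tau X F φ v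

theorem ph_g (F : Finset (Σ v, Γ v)) (φ : (v : V) → Γ v → P) (v : V) (a : Γ v) :
    (ph X m F φ v a).g = φ v a := by
  unfold ph
  rw [mul_g, mul_g, inv_g]
  change (1 : P)⁻¹ * φ v a * 1 = φ v a
  rw [inv_one, one_mul, mul_one]

theorem ph_f (F : Finset (Σ v, Γ v)) (φ : (v : V) → Γ v → P) (v : V) (a : Γ v) (z : P) (i : F) :
    (ph X m F φ v a).f z i = (if (φ v a)⁻¹ * z ∈ LL X φ v ∧ i.1.1 = v then 1 else 0) -
      if z ∈ LL X φ v ∧ i.1.1 = v then 1 else 0 := by
  unfold ph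
  rw [mul_f, mul_f, mul_g, inv_f, inv_g]
  change -(if 1 * z ∈ LL X φ v ∧ i.1.1 = v then (1 : ZMod m) else 0) + 0 +
    (if (1⁻¹ * φ v a)⁻¹ * z ∈ LL X φ v ∧ i.1.1 = v then 1 else 0) = _
  simp only [one_mul, inv_one]
  ring

theorem ev_cons {Q : Type} [Group Q] (φ : (v : V) → Γ v → Q) (x : Σ v, Γ v)
    (l : List (Σ v, Γ v)) : ev φ (x :: l) = φ x.1 x.2 * ev φ l := by
  unfold ev
  rw [List.map_cons, List.prod_cons]

theorem ev_nil {Q : Type} [Group Q] (φ : (v : V) → Γ v → Q) : ev φ ([] : List (Σ v, Γ v)) = 1 := rfl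

theorem ev_app {Q : Type} [Group Q] (φ : (v : V) → Γ v → Q) (l l' : List (Σ v, Γ v)) :
    ev φ (l ++ l') = ev φ l * ev φ l' := by
  unfold ev
  rw [List.map_append, List.prod_append]

theorem ev_ph_g (F : Finset (Σ v, Γ v)) (φ : (v : V) → Γ v → P) (l : List (Σ v, Γ v)) :
    (ev (ph X m F φ) l).g = ev φ l := by
  induction l with
  | nil => rfl
  | cons x l ih => rw [ev_cons, ev_cons, mul_g, ih, ph_g]

/-- invariance of the lamps -/
theorem ph_f_inv (F : Finset (Σ v, Γ v)) (φ : (v : V) → Γ v → P) (v : V) (a : Γ v) (z : P) (i : F)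
    {g : P} (hg : g ∈ LL X φ v) (hc : Commute g (φ v a)) :
    (ph X m F φ v a).f (g⁻¹ * z) i = (ph X m F φ v a).f z i := by
  rw [ph_f, ph_f]
  have h1 : g⁻¹ * z ∈ LL X φ v ↔ z ∈ LL X φ v :=
    (LL X φ v).mul_mem_cancel_left ((LL X φ v).inv_mem hg)
  have h2 : (φ v a)⁻¹ * (g⁻¹ * z) ∈ LL X φ v ↔ (φ v a)⁻¹ * z ∈ LL X φ v := by
    have e : (φ v a)⁻¹ * (g⁻¹ * z) = g⁻¹ * ((φ v a)⁻¹ * z) := by
      rw [← mul_assoc, ← mul_assoc, (hc.inv_inv).eq]
    rw [e]
    exact (LL X φ v).mul_mem_cancel_left ((LL X φ v).inv_mem hg)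
  simp only [h1, h2]

theorem mem_LL (φ : (v : V) → Γ v → P) {u v : V} (h : X.Adj u v) (a : Γ u) : φ u a ∈ LL X φ v :=
  Subgroup.subset_closure ⟨u, h.symm, a, rfl⟩

theorem ph_comm (F : Finset (Σ v, Γ v)) (φ : (v : V) → Γ v → P)
    (hφ : ∀ u v, X.Adj u v → ∀ (a : Γ u) (b : Γ v), Commute (φ u a) (φ v b)) (u v : V)
    (h : X.Adj u v) (a : Γ u) (b : Γ v) : Commute (ph X m F φ u a) (ph X m F φ v b) := by
  refine Wr.ext ?_ ?_
  · funext z i
    rw [mul_f, mul_f, ph_g, ph_g, ph_f_inv F φ v b z i (mem_LL φ h a) (hφ u v h a b),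
      ph_f_inv F φ u a z i (mem_LL φ h.symm b) (hφ u v h a b).symm, add_comm]
  · rw [mul_g, mul_g, ph_g, ph_g]
    exact hφ u v h a b

/-- the number of points -/
noncomputable def nn [Fintype P] (L C : Subgroup P) (x₀ y : P) : ℕ :=
  (Finset.univ.filter fun z : P => z * x₀⁻¹ ∈ C ∧ y⁻¹ * z ∈ L).card

theorem nn_le [Fintype P] (L C : Subgroup P) (x₀ y : P) : nn L C x₀ y ≤ Fintype.card P :=
  Finset.card_le_univ _

theorem sm_L [Fintype P] (L C : Subgroup P) (x₀ y : P) (b : Prop) :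
    sm C x₀ (fun z => if y⁻¹ * z ∈ L ∧ b then (1 : ZMod m) else 0) =
      if b then (nn L C x₀ y : ZMod m) else 0 := by
  unfold sm nn
  by_cases hb : b
  · rw [if_pos hb, Finset.card_filter]
    push_cast
    refine Finset.sum_congr rfl fun z _ => ?_
    by_cases h1 : z * x₀⁻¹ ∈ C
    · by_cases h2 : y⁻¹ * z ∈ L
      · simp [h1, h2, hb]
      · simp [h1, h2]
    · simp [h1]
  · rw [if_neg hb]
    refine Finset.sum_eq_zero fun z _ => ?_
    simp [hb]

/-- the integer -/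
noncomputable def DD [Fintype P] (φ : (v : V) → Γ v → P) (L C : Subgroup P) (x₀ : P) (v : V) :
    P → List (Σ v, Γ v) → ℤ
  | _, [] => 0
  | h, x :: l => (if x.1 = v then (nn L C x₀ (h * φ x.1 x.2) : ℤ) - nn L C x₀ h else 0) +
      DD φ L C x₀ v (h * φ x.1 x.2) l

theorem sm_ev [Fintype P] (F : Finset (Σ v, Γ v)) (φ : (v : V) → Γ v → P) (C : Subgroup P)
    (x₀ : P) (i : F) (l : List (Σ v, Γ v)) : ∀ h : P,
    sm C x₀ (fun z => (ev (ph X m F φ) l).f (h⁻¹ * z) i) =
      ((DD φ (LL X φ i.1.1) C x₀ i.1.1 h l : ℤ) : ZMod m) := by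
  induction l with
  | nil =>
    intro h
    have h1 : ∀ z : P, (ev (ph X m F φ) []).f (h⁻¹ * z) i = 0 := fun z => rfl
    simp only [h1]
    rw [sm_zero]
    simp [DD]
  | cons x l ih =>
    intro h
    have h2 : ∀ z : P, (ev (ph X m F φ) (x :: l)).f (h⁻¹ * z) i =
        ((if (h * φ x.1 x.2)⁻¹ * z ∈ LL X φ x.1 ∧ i.1.1 = x.1 then (1 : ZMod m) else 0) -
          (if h⁻¹ * z ∈ LL X φ x.1 ∧ i.1.1 = x.1 then 1 else 0)) +
        (ev (ph X m F φ) l).f ((h * φ x.1 x.2)⁻¹ * z) i := by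
      intro z
      rw [ev_cons, mul_f, ph_g, ph_f, mul_inv_rev, mul_assoc]
    simp only [h2]
    rw [sm_add, sm_sub, sm_L, sm_L, ih (h * φ x.1 x.2)]
    rw [DD]
    by_cases hv : x.1 = i.1.1
    · have hL : LL X φ x.1 = LL X φ i.1.1 := congrArg (LL X φ) hv
      rw [if_pos hv.symm, if_pos hv, if_pos hv.symm, hL]
      push_cast
      rfl
    · rw [if_neg (fun h => hv h.symm), if_neg hv, if_neg (fun h => hv h.symm)]
      push_cast
      rw [sub_zero]

theorem DD_app [Fintype P] (φ : (v : V) → Γ v → P) (L C : Subgroup P) (x₀ : P) (v : V)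
    (l l' : List (Σ v, Γ v)) : ∀ h : P, (∀ y ∈ l, y.1 ≠ v) →
      DD φ L C x₀ v h (l ++ l') = DD φ L C x₀ v (h * ev φ l) l' := by
  induction l with
  | nil =>
    intro h _
    rw [List.nil_append, ev_nil, mul_one]
  | cons x l ih =>
    intro h hl
    rw [List.cons_append, DD, if_neg (hl x List.mem_cons_self), zero_add,
      ih _ (fun y hy => hl y (List.mem_cons_of_mem _ hy)), ev_cons, mul_assoc]

theorem DD_bound [Fintype P] (φ : (v : V) → Γ v → P) (L C : Subgroup P) (x₀ : P) (v : V)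
    (l : List (Σ v, Γ v)) : ∀ h : P,
    (∀ p y q, l = p ++ y :: q → y.1 = v → nn L C x₀ (h * ev φ p) = 0) →
      0 ≤ DD φ L C x₀ v h l ∧ DD φ L C x₀ v h l ≤ l.length * Fintype.card P := by
  induction l with
  | nil =>
    intro h _
    simp [DD]
  | cons x l ih =>
    intro h hs
    have h1 : x.1 = v → nn L C x₀ h = 0 := by
      intro hx
      have := hs [] x l rfl hx
      rwa [ev_nil, mul_one] at this
    obtain ⟨h2, h3⟩ := ih (h * φ x.1 x.2) (by
      intro p y q hl hy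
      have := hs (x :: p) y q (by rw [hl]; rfl) hy
      rwa [ev_cons, ← mul_assoc] at this)
    rw [DD, List.length_cons]
    have h4 : (nn L C x₀ (h * φ x.1 x.2) : ℤ) ≤ Fintype.card P := by
      exact_mod_cast nn_le L C x₀ _
    have h5 : (0 : ℤ) ≤ nn L C x₀ (h * φ x.1 x.2) := by positivity
    have h6 : (0 : ℤ) ≤ Fintype.card P := by positivity
    push_cast
    by_cases hx : x.1 = v
    · rw [if_pos hx, h1 hx]
      push_cast
      constructor <;> linarith
    · rw [if_neg hx]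
      constructor <;> linarith

end words

theorem t_G1 : N894.WF.LeafG1 := by
  intro V X Γ _ F K N hN
  rintro ⟨P, hP, hPf, φ, hφ, hG⟩
  have hPF : Fintype P := Fintype.ofFinite P
  obtain ⟨m, hm⟩ : ∃ m : ℕ, m = (N + 2) * Fintype.card P + 1 := ⟨_, rfl⟩
  have : NeZero m := ⟨by omega⟩
  refine ⟨Wr P F m, inferInstance, inferInstance, ph X m F φ, ph_comm F φ hφ, ?_⟩
  intro l hlen hlF hred S hSl T' hT'c hT'e c' hc' s' hs' heq
  -- the projection
  set T : Finset P := T'.image (fun w => w.g) with hT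
  have hTc : T.card ≤ K := Finset.card_image_le.trans hT'c
  -- the errors
  have herr : ∀ t ∈ T', ∃ Z : Wr P F m, ∃ v : V, ∃ a b : Γ v, (⟨v, a⟩ : Σ v, Γ v) ∈ F ∧
      (⟨v, b⟩ : Σ v, Γ v) ∈ F ∧ t = Z * inl (φ v a * φ v b * (φ v (a * b))⁻¹) * Z⁻¹ := by
    intro t ht
    obtain ⟨x, v, a, b, ha, hb, h⟩ := hT'e t ht
    refine ⟨x * (tau X F φ v)⁻¹, v, a, b, ha, hb, ?_⟩
    rw [h, inl_mul, inl_mul, inl_inv]
    unfold ph
    group
  have hTe : IsErrV φ F T := by
    intro t ht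
    obtain ⟨w, hw, rfl⟩ := Finset.mem_image.1 ht
    obtain ⟨Z, v, a, b, ha, hb, h⟩ := herr w hw
    exact ⟨Z.g, v, a, b, ha, hb, by rw [h, conj_inl_g]⟩
  set C : Subgroup P := Subgroup.closure (T : Set P) with hC
  have hsub : Subgroup.closure (T' : Set (Wr P F m)) ≤ SS C := by
    rw [Subgroup.closure_le]
    intro t ht
    have htT : t.g ∈ C := Subgroup.subset_closure (Finset.mem_coe.2 (Finset.mem_image_of_mem _ ht))
    obtain ⟨Z, v, a, b, ha, hb, h⟩ := herr t ht
    rw [h, conj_inl_g] at htT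
    rw [h]
    exact conj_mem C Z _ htT
  obtain ⟨hg, hf⟩ := hsub hc'
  -- the second factor
  have hs1 : s'.g ∈ Lbar φ S := by
    have h1 : Lbar (ph X m F φ) S ≤ (Lbar φ S).comap
        ({ toFun := fun w => w.g, map_one' := rfl, map_mul' := fun _ _ => rfl } : Wr P F m →* P) := by
      unfold Lbar
      rw [Subgroup.closure_le]
      rintro _ ⟨s, hs, a, rfl⟩
      show (ph X m F φ s a).g ∈ Lbar φ S
      rw [ph_g]
      exact Subgroup.subset_closure ⟨s, hs, a, rfl⟩
    exact h1 hs'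
  have hev : ev φ l = c'.g * s'.g := by
    rw [← ev_ph_g (X := X) (m := m) F φ l, heq, mul_g]
  rcases Nat.lt_or_ge N l.length with hlt | hge
  swap
  · exact hG l hge hlF hred S hSl T hTc hTe c'.g hg s'.g hs1 hev
  obtain ⟨x', hx'l, hx'S⟩ := hSl
  obtain ⟨v, hv⟩ : ∃ v, v = x'.1 := ⟨_, rfl⟩
  -- the first letter with vertex `v`
  obtain ⟨p, x, q, hl, hxv, hpv⟩ : ∃ p x q, l = p ++ x :: q ∧ x.1 = v ∧ ∀ y ∈ p, y.1 ≠ v := by
    have hex : ∃ y ∈ l, y.1 = v := ⟨x', hx'l, hv.symm⟩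
    clear hlt hlen hlF hred heq hev hx'l hs' hc'
    induction l with
    | nil => simp at hex
    | cons y l ih =>
      by_cases hy : y.1 = v
      · exact ⟨[], y, l, rfl, hy, by simp⟩
      · obtain ⟨z, hz, hzv⟩ := hex
        have hz' : z ∈ l := by
          rcases List.mem_cons.1 hz with h | h
          · subst h
            exact absurd hzv hy
          · exact h
        obtain ⟨p, x, q, h1, h2, h3⟩ := ih ⟨z, hz', hzv⟩
        refine ⟨y :: p, x, q, by rw [h1]; rfl, h2, ?_⟩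
        intro w hw
        rcases List.mem_cons.1 hw with h | h
        · rw [h]
          exact hy
        · exact h3 w h
  have hxl : x ∈ l := by
    rw [hl]
    exact List.mem_append_right _ List.mem_cons_self
  have hxF : x ∈ F := (hlF x hxl).1
  obtain ⟨w, hw⟩ : ∃ w, w = ev φ p := ⟨_, rfl⟩
  obtain ⟨x₀, hx₀⟩ : ∃ x₀, x₀ = w * φ x.1 x.2 := ⟨_, rfl⟩
  obtain ⟨L, hL⟩ : ∃ L, L = LL X φ x.1 := ⟨_, rfl⟩
  -- the coordinate of the second factor vanishes
  have hs2 : ∀ z : P, s'.f z ⟨x, hxF⟩ = 0 := by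
    let Z : Subgroup (Wr P F m) :=
      { carrier := {w | ∀ z : P, w.f z ⟨x, hxF⟩ = 0}
        one_mem' := fun _ => rfl
        mul_mem' := by
          intro a b ha hb z
          rw [mul_f, ha, hb, add_zero]
        inv_mem' := by
          intro a ha z
          rw [inv_f, ha, neg_zero] }
    have h1 : Lbar (ph X m F φ) S ≤ Z := by
      unfold Lbar
      rw [Subgroup.closure_le]
      rintro _ ⟨s, hs, a, rfl⟩ z
      rw [ph_f]
      have h2 : ¬ x.1 = s := by
        intro h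
        apply hx'S
        rw [← hv, ← hxv, h]
        exact hs
      simp [h2]
    exact h1 hs'
  have hzero : sm C x₀ (fun z => (ev (ph X m F φ) l).f z ⟨x, hxF⟩) = 0 := by
    rw [heq]
    simp only [mul_f, hs2, add_zero]
    exact hf x₀ ⟨x, hxF⟩
  have h3 := sm_ev (X := X) (m := m) F φ C x₀ ⟨x, hxF⟩ l 1
  simp only [inv_one, one_mul] at h3
  rw [hzero, ← hL, hl, DD_app φ L C x₀ x.1 p (x :: q) 1 (fun y hy => by
    rw [hxv]
    exact hpv y hy), one_mul, ← hw, DD, if_pos rfl, ← hx₀] at h3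
  -- the two contradictions
  have key : ∀ (g : P) (u : List (Σ v, Γ v)), u.length ≤ N → (∀ y ∈ u, y ∈ F ∧ y.2 ≠ 1) → Red X u →
      (∃ y ∈ u, y.1 ∉ X.neighborSet x.1) → ∀ c ∈ C, ∀ r ∈ L, ev φ u ≠ (g⁻¹ * c * g) * r := by
    intro g u hu huF huR huS c hc r hr h
    set T2 : Finset P := T.image (fun t => g⁻¹ * t * g) with hT2
    refine hG u hu huF huR (X.neighborSet x.1) huS T2 (Finset.card_image_le.trans hTc) ?_
      (g⁻¹ * c * g) ?_ r (by rw [hL] at hr; exact hr) h
    · intro t ht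
      obtain ⟨s, hs, rfl⟩ := Finset.mem_image.1 ht
      obtain ⟨z, v, a, b, ha, hb, h⟩ := hTe s hs
      exact ⟨g⁻¹ * z, v, a, b, ha, hb, by rw [h]; group⟩
    · have h5 : (T2 : Set P) = (MulAut.conj g⁻¹).toMonoidHom '' (T : Set P) := by
        rw [hT2, Finset.coe_image]
        refine Set.image_congr fun t _ => ?_
        simp [MulAut.conj_apply]
      rw [h5, ← MonoidHom.map_closure]
      refine ⟨c, hc, ?_⟩
      simp [MulAut.conj_apply]
  have hnn : ∀ y : P, nn L C x₀ y ≠ 0 → ∃ c ∈ C, ∃ r ∈ L, c * x₀ = y * r := by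
    intro y hy
    obtain ⟨z, hz⟩ := Finset.card_ne_zero.1 hy
    rw [Finset.mem_filter] at hz
    refine ⟨z * x₀⁻¹, hz.2.1, y⁻¹ * z, hz.2.2, ?_⟩
    group
  -- case (a)
  have ha : nn L C x₀ w = 0 := by
    by_contra hne
    obtain ⟨c, hc, r, hr, h⟩ := hnn w hne
    refine key w [x] (by simpa using hN) ?_ ?_ ?_ c⁻¹ (C.inv_mem hc) r hr ?_
    · intro y hy
      rw [List.mem_singleton] at hy
      rw [hy]
      exact hlF x hxl
    · intro p' u' q' a b h1 _
      have h2 := congrArg List.length h1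
      simp only [List.length_append, List.length_cons, List.length_nil] at h2
      omega
    · exact ⟨x, List.mem_singleton_self x, by simp⟩
    · rw [ev_cons, ev_nil, mul_one]
      have h1 : c * (w * φ x.1 x.2) = w * r := by rw [← hx₀]; exact h
      have h2 : r = w⁻¹ * c * w * φ x.1 x.2 := by
        rw [mul_assoc (w⁻¹ * c), mul_assoc w⁻¹, h1]
        group
      rw [h2]
      group
  -- case (b)
  have hb : ∀ u y q', q = u ++ y :: q' → y.1 = x.1 → nn L C x₀ (x₀ * ev φ u) = 0 := by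
    intro u y q' hq hy
    by_contra hne
    obtain ⟨c, hc, r, hr, h⟩ := hnn _ hne
    have hlu : l = p ++ x :: (u ++ y :: q') := by rw [hl, hq]
    have hlen2 : l.length = p.length + (u.length + (q'.length + 1) + 1) := by
      rw [hlu, List.length_append, List.length_cons, List.length_append, List.length_cons]
    refine key x₀ u (by omega) (fun z hz => hlF z ?_) ?_ ?_ c hc r⁻¹ (L.inv_mem hr) ?_
    · rw [hlu]
      exact List.mem_append_right _ (List.mem_cons_of_mem _ (List.mem_append_left _ hz))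
    · intro p1 u1 q1 a b h1 h2
      refine hred (p ++ x :: p1) u1 (q1 ++ y :: q') a b ?_ h2
      rw [hlu, h1]
      simp
    · obtain ⟨z, hz, hzX⟩ := hred p u q' x y hlu hy.symm
      exact ⟨z, hz, hzX⟩
    · have h1 : ev φ u = x₀⁻¹ * (x₀ * ev φ u * r) * r⁻¹ := by group
      rw [h1, ← h]
      group
  obtain ⟨h5, h6⟩ := DD_bound φ L C x₀ x.1 q x₀ hb
  have hx1 : 1 ≤ nn L C x₀ x₀ := by
    refine Nat.one_le_iff_ne_zero.2 (Finset.card_ne_zero.2 ⟨x₀, ?_⟩)
    rw [Finset.mem_filter]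
    exact ⟨Finset.mem_univ _, by rw [mul_inv_cancel]; exact C.one_mem,
      by rw [inv_mul_cancel]; exact L.one_mem⟩
  have hx2 := nn_le L C x₀ x₀
  rw [ha] at h3
  have h7 := h3.symm
  rw [ZMod.intCast_zmod_eq_zero_iff_dvd] at h7
  have h8 : q.length ≤ N := by
    have : l.length = p.length + (q.length + 1) := by
      rw [hl, List.length_append, List.length_cons]
    omega
  have h9 := Int.le_of_dvd (by push_cast; omega) h7
  have h10 : (q.length : ℤ) * Fintype.card P ≤ N * Fintype.card P := by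
    exact_mod_cast Nat.mul_le_mul_right _ h8
  rw [hm] at h9
  push_cast at h9
  have h11 : (nn L C x₀ x₀ : ℤ) ≤ Fintype.card P := by exact_mod_cast hx2
  nlinarith

end Pool.Agent.N881.WF
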